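import Pool.Agent.Lib.MP_d0515f_al.MainSmall
import Pool.Agent.Lib.MP_d0515f_al.SmallH

/-!
# The feasible parameters of a tridiagonal pair with `β = 2`

The definitions `TDP.eigS`, `TDP.HalfTD`, `TDP.IsTDPair`, `TDP.BetaTwo`, `TDP.Feasible` are in
`Pool.Agent.Lib.MP_d0515f_al.Defs`; the remaining ones are below.
-/

namespace Pool.Agent.Results.MP_d0515f_al.FeasibleParameters

open Module TDP

/-- half of the second difference of a sequence; it is `c` when `θ_i = a + b i + c i ^ 2` -/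
def quadCoeff {K : Type*} [Field K] (θ : ℕ → K) : K := (θ 0 - 2 * θ 1 + θ 2) / 2

/-- the mean first difference `(θ_d - θ_0) / d`; it is `b + c d` when
`θ_i = a + b i + c i ^ 2` -/
def slope {K : Type*} [Field K] (d : ℕ) (θ : ℕ → K) : K := (θ d - θ 0) / d

/-- the normalised variance of the spectrum of `A + t B`:
`12 ((d + 1) tr((A + t B) ^ 2) - tr(A + t B) ^ 2) / (d (d + 1) ^ 2 (d + 2))` -/
noncomputable def variance {K V : Type*} [Field K] [AddCommGroup V] [Module K V]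
    (A B : Module.End K V) (d : ℕ) (t : K) : K :=
  12 * (((d : K) + 1) * LinearMap.trace K V ((A + t • B) ^ 2)
      - (LinearMap.trace K V (A + t • B)) ^ 2) / ((d : K) * ((d : K) + 1) ^ 2 * ((d : K) + 2))

/-- the systematic case: the second differences of `θ` and of `t θ*` agree, and the reduced
variance is a square in `K` -/
def Systematic {K V : Type*} [Field K] [AddCommGroup V] [Module K V]
    (A B : Module.End K V) (d : ℕ) (θ θs : ℕ → K) (t : K) : Prop :=
  quadCoeff θ = t * quadCoeff θs ∧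
    IsSquare (variance A B d t - ((d : K) - 1) * ((d : K) + 3) / 15 * quadCoeff θ ^ 2)

/-- the explicit equations for the sporadic values when `3 ≤ d ≤ 5`. Here `c1`, `c2` are the
quadratic coefficients of `θ` and `t θ*`, `u1`, `u2` the squares of their slopes, `ρ` the
normalised variance, and `β ^ 2`, `γ` are the two unknowns -/
def SporadicEqs {K : Type*} [Field K] (d : ℕ) (c1 c2 u1 u2 ρ β γ : K) : Prop :=
  ∀ N a e P Q : K, N = ((d : K) + 1) ^ 2 → a = c1 + c2 → e = c1 - c2 →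
    P = a ^ 3 - 9 * a * e ^ 2 → Q = a ^ 2 + 3 * e ^ 2 →
    15 * β ^ 2 = 15 * ρ - (N - 4) * γ ^ 2 ∧
    3780 * (e * (u1 - u2)) = 1260 * β ^ 2 * (a + 2 * γ) - 21 * (N - 4) * a * (Q - 4 * γ ^ 2)
      + 5 * (N - 16) * (P + 8 * γ ^ 3) ∧
    56700 * (e ^ 2 * (u1 + u2)) =
      630 * β ^ 2 * (3 * Q - 10 * a ^ 2 + 20 * a * γ + 68 * γ ^ 2)
      + (Q - 4 * γ ^ 2) * (105 * (N - 4) * a ^ 2 + 42 * (19 - N) * Q + 42 * (64 - N) * γ ^ 2)
      + 25 * (N - 16) * a * (P + 8 * γ ^ 3) ∧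
    (4 ≤ d → 33 * β ^ 2 * (5 * P - 21 * γ * Q + 124 * γ ^ 3) =
      (4 * N - 1) * P * Q - 11 * (N - 4) * γ ^ 2 * P + 11 * (N - 16) * γ ^ 3 * Q
        + (1024 - 4 * N) * γ ^ 5) ∧
    (5 ≤ d → 195 * β ^ 2 * (2625 * γ * P - 441 * Q ^ 2 - 7497 * γ ^ 2 * Q + 58044 * γ ^ 4)
      + 250 * (4 * N - 1) * P ^ 2 + 8125 * (N - 16) * γ ^ 3 * P
      + 441 * (4 * N - 1) * Q ^ 3 - 5733 * (N - 4) * γ ^ 2 * Q ^ 2
      + 5733 * (64 - N) * γ ^ 4 * Q + 2764 * (N - 1024) * γ ^ 6 = 0)

/-- the sporadic values when `3 ≤ d ≤ 5` -/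
def SporadicLow {K V : Type*} [Field K] [AddCommGroup V] [Module K V]
    (A B : Module.End K V) (d : ℕ) (θ θs : ℕ → K) (t : K) : Prop :=
  quadCoeff θ ≠ t * quadCoeff θs ∧ ∃ β γ : K,
    SporadicEqs d (quadCoeff θ) (t * quadCoeff θs) (slope d θ ^ 2) ((t * slope d θs) ^ 2)
      (variance A B d t) β γ

/-- the three sporadic families when `d = 6` -/
def SporadicSix {K V : Type*} [Field K] [AddCommGroup V] [Module K V]
    (A B : Module.End K V) (θ θs : ℕ → K) (t : K) : Prop :=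
  IsSquare (3 : K) ∧ ∀ b1 b2 c1 c2 : K, b1 = slope 6 θ → b2 = t * slope 6 θs →
    c1 = quadCoeff θ → c2 = t * quadCoeff θs →
    (c1 + c2 = 0 ∧ 5 * b1 ^ 2 = c1 ^ 2 ∧ 5 * b2 ^ 2 = c1 ^ 2 ∧
      variance A B 6 t = 12 * c1 ^ 2) ∨
    (c1 = 2 * c2 ∧ 5 * b1 ^ 2 = 4 * c2 ^ 2 ∧ 5 * b2 ^ 2 = -11 * c2 ^ 2 ∧
      variance A B 6 t = 12 * c2 ^ 2) ∨
    (c2 = 2 * c1 ∧ 5 * b2 ^ 2 = 4 * c1 ^ 2 ∧ 5 * b1 ^ 2 = -11 * c1 ^ 2 ∧
      variance A B 6 t = 12 * c1 ^ 2)

theorem sporadicEqs_iff {K : Type*} [Field K] (d : ℕ) (c1 c2 u1 u2 ρ β γ : K) :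
    SporadicEqs d c1 c2 u1 u2 ρ β γ ↔ MidRel d c1 c2 u1 u2 ρ (β ^ 2) γ := by
  unfold SporadicEqs MidRel rel2 rel3 rel4 rel5 rel6 iP iQ
  constructor
  · intro h
    exact h _ _ _ _ _ rfl rfl rfl rfl rfl
  · rintro h N a e P Q rfl rfl rfl rfl rfl
    exact h

/-- the conditions on the characteristic give all the numbers used in the proof -/
theorem good_of_ringChar {K : Type*} [Field K] {d : ℕ} (hp : ringChar K = 0 ∨
      (max (d + 8) 17 < ringChar K ∧ ¬ ringChar K ∣ (2 * d + 1) * (2 * d + 3))) :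
    Num17 K ∧ Good K d := by
  have hne : ∀ m : ℕ, 0 < m → m ≤ max (d + 8) 17 → (m : K) ≠ 0 := by
    intro m hm hm' h0
    have h1 := (ringChar.spec K m).1 h0
    rcases hp with hp | ⟨hp, -⟩
    · rw [hp, zero_dvd_iff] at h1
      omega
    · have := Nat.le_of_dvd hm h1
      omega
  have hodd : ∀ m : ℕ, 0 < m → m ∣ (2 * d + 1) * (2 * d + 3) → (m : K) ≠ 0 := by
    intro m hm hm' h0
    have h1 := (ringChar.spec K m).1 h0
    rcases hp with hp | ⟨-, hp⟩
    · rw [hp, zero_dvd_iff] at h1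
      omega
    · exact hp (h1.trans hm')
  refine ⟨Num17.of_ne fun m hm hm' => hne m hm (le_max_of_le_right hm'),
    ⟨fun l hl hl' => hne l hl (le_max_of_le_left hl'), ?_, ?_⟩⟩
  · have := hodd (2 * d + 1) (by omega) (Dvd.intro _ rfl)
    push_cast at this
    exact this
  · have := hodd (2 * d + 3) (by omega) (Dvd.intro_left _ rfl)
    push_cast at this
    exact this

/-- **Main theorem.** Let `A, B` be a tridiagonal pair of diameter `d` with `β = 2` on a finite
dimensional vector space over a field whose characteristic is `0`, or a prime `p` which is larger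
than `max (d + 8) 17` and does not divide `(2 d + 1) (2 d + 3)`. The feasible parameters `t` are
`0` and, only when all eigenspaces have dimension one (`dim V = d + 1`), the following ones: for
`d ≤ 2` all `t` for which the minimal polynomial splits; for `d ≥ 3` the systematic ones; and for
`3 ≤ d ≤ 6` the sporadic ones given by explicit equations. -/
theorem result {K V : Type*} [Field K] [AddCommGroup V] [Module K V]
    [FiniteDimensional K V] (A B : Module.End K V) (d δ : ℕ) (θ θs : ℕ → K)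
    (hp : ringChar K = 0 ∨
      (max (d + 8) 17 < ringChar K ∧ ¬ ringChar K ∣ (2 * d + 1) * (2 * d + 3)))
    (h : IsTDPair A B d δ θ θs) (hβ : BetaTwo d θ) (hβs : BetaTwo δ θs) (t : K) :
    Feasible A B d t ↔ t = 0 ∨ (finrank K V = d + 1 ∧
      ((d ≤ 2 ∧ (minpoly K (A + t • B)).Splits) ∨
       (3 ≤ d ∧ Systematic A B d θ θs t) ∨
       (3 ≤ d ∧ d ≤ 5 ∧ SporadicLow A B d θ θs t) ∨
       (d = 6 ∧ SporadicSix A B θ θs t))) := by
  obtain ⟨hN, hK⟩ := good_of_ringChar hp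
  have hcc : ∀ φ : ℕ → K, quadCoeff φ = cc φ := fun _ => rfl
  have hbb : ∀ φ : ℕ → K, slope d φ = bb d φ := fun _ => rfl
  have hvar : variance A B d t = rho A B d t := rfl
  have hsys : Systematic A B d θ θs t ↔ (cc θ = t * cc θs ∧
      IsSquare (rho A B d t - ((d : K) - 1) * ((d : K) + 3) / 15 * cc θ ^ 2)) := Iff.rfl
  have hlow : SporadicLow A B d θ θs t ↔ (cc θ ≠ t * cc θs ∧ ∃ β γ : K,
      MidRel d (cc θ) (t * cc θs) (bb d θ ^ 2) ((t * bb d θs) ^ 2) (rho A B d t) (β ^ 2) γ) := by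
    unfold SporadicLow
    simp only [sporadicEqs_iff, hcc, hbb, hvar]
  have hsix : d = 6 → (SporadicSix A B θ θs t ↔ (IsSquare (3 : K) ∧
      Spor7 (bb 6 θ) (t * bb 6 θs) (cc θ) (t * cc θs) (rho A B 6 t))) := by
    intro _
    unfold SporadicSix Spor7
    refine and_congr Iff.rfl ?_
    constructor
    · intro h
      exact h _ _ _ _ rfl rfl rfl rfl
    · rintro h b1 b2 c1 c2 rfl rfl rfl rfl
      exact h
  constructor
  · intro hf
    by_cases ht : t = 0
    · exact Or.inl ht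
    right
    have hfin := finrank_of_feasible hK h hβ hβs ht hf
    refine ⟨hfin, ?_⟩
    by_cases h2 : d ≤ 2
    · left
      have h1 := (feasible_iff_small hK h hβ hβs h2 t).1 hf
      exact ⟨h2, (h1.resolve_left ht).2⟩
    by_cases h5 : d ≤ 5
    · rcases (feas_mid' hK h hβ hβs (by omega) h5 hfin t).1 hf with h1 | h1
      · exact Or.inr (Or.inl ⟨by omega, hsys.2 h1⟩)
      · exact Or.inr (Or.inr (Or.inl ⟨by omega, h5, hlow.2 h1⟩))
    by_cases h6 : d = 6
    · subst h6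
      rcases (feas_six hK h hβ hβs hfin ht).1 hf with h1 | h1
      · refine Or.inr (Or.inl ⟨by omega, hsys.2 ⟨h1.1, ?_⟩⟩)
        have e : rho A B 6 t - (((6 : ℕ) : K) - 1) * (((6 : ℕ) : K) + 3) / 15 * cc θ ^ 2 =
            rho A B 6 t - 3 * cc θ ^ 2 := by
          have w15 := nz15 (K := K)
          push_cast
          field_simp
          ring
        rw [e]
        exact h1.2
      · exact Or.inr (Or.inr (Or.inr ⟨rfl, (hsix rfl).2 h1⟩))
    · exact Or.inr (Or.inl ⟨by omega,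
        hsys.2 (systematic_of_feasible hK h hβ hβs (by omega) hfin ht hf)⟩)
  · rintro (rfl | ⟨hfin, h1⟩)
    · exact feasible_zero h hβ
    rcases h1 with ⟨h2, h1⟩ | ⟨h2, h1⟩ | ⟨h2, h5, h1⟩ | ⟨h6, h1⟩
    · exact (feasible_iff_small hK h hβ hβs h2 t).2 (Or.inr ⟨hfin, h1⟩)
    · have h3 := hsys.1 h1
      exact feasible_of_systematic hK h hβ hβs (by omega) hfin h3.1 h3.2
    · exact (feas_mid' hK h hβ hβs h2 h5 hfin t).2 (Or.inr (hlow.1 h1))
    · by_cases ht : t = 0
      · subst ht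
        exact feasible_zero h hβ
      have h3 := (hsix h6).1 h1
      subst h6
      exact (feas_six hK h hβ hβs hfin ht).2 (Or.inr h3)

end Pool.Agent.Results.MP_d0515f_al.FeasibleParameters
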